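import Pool.Agent.helper5.IH.Spec

/-!
# Project ih (MP_45d809_mp), row EUW: a transition system with one circuit is an Eulerian word
-/

set_option autoImplicit false

namespace Pool.Agent.IH
open Finset CT SYM

/-- Induction along a circuit. -/
private theorem EUW_ind {D : Type} {s τ : D → D} (hs : ∀ d, s (s d) = d) (ht : ∀ d, τ (τ d) = d) (S : Set D)
    (h1 : ∀ d ∈ S, s d ∈ S) (h2 : ∀ d ∈ S, τ d ∈ S) {d d₀ : D} (h : cir s τ d = cir s τ d₀)
    (h0 : d₀ ∈ S) : d ∈ S := by
  let m : Cir s τ → Prop := Quot.lift (fun d => d ∈ S) (by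
    rintro a b (h | h)
    · rw [h]
      refine propext ⟨h1 a, fun h3 => ?_⟩
      have h4 := h1 _ h3
      rwa [hs] at h4
    · rw [h]
      refine propext ⟨h2 a, fun h3 => ?_⟩
      have h4 := h2 _ h3
      rwa [ht] at h4)
  have h5 : m (cir s τ d) = m (cir s τ d₀) := by rw [h]
  have h6 : (d ∈ S) = (d₀ ∈ S) := h5
  rw [h6]
  exact h0

section
variable {V : Type} {G : SimpleGraph V}

/-- the step along the circuit -/
private def EUW_r (τ : G.Dart → G.Dart) (d : G.Dart) : G.Dart := τ d.symm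

private theorem EUW_ne (τ : G.Dart → G.Dart) (hτ : IsTS τ) (k : ℕ) :
    ∀ d : G.Dart, (EUW_r τ)^[k] d ≠ d.symm := by
  induction k using Nat.twoStepInduction with
  | zero =>
    intro d h
    exact d.symm_ne h.symm
  | one =>
    intro d h
    exact hτ.2.2 d.symm h
  | more k ih _ =>
    intro d h
    rw [Function.iterate_succ_apply'] at h
    have h1 : ((EUW_r τ)^[k + 1] d).symm = τ d.symm := by
      have h2 : τ (((EUW_r τ)^[k + 1] d).symm) = d.symm := h
      rw [← h2, hτ.1]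
    rw [Function.iterate_succ_apply] at h1
    have h3 : (EUW_r τ)^[k] (EUW_r τ d) = (EUW_r τ d).symm := by
      have h4 := congrArg SimpleGraph.Dart.symm h1
      rw [SimpleGraph.Dart.symm_symm] at h4
      exact h4
    exact ih _ h3

private theorem EUW_ne2 (τ : G.Dart → G.Dart) (hτ : IsTS τ) (d : G.Dart) (i j : ℕ) :
    (EUW_r τ)^[i] d ≠ ((EUW_r τ)^[j] d).symm := by
  intro h
  rcases le_total j i with hij | hij
  · obtain ⟨k, rfl⟩ := Nat.exists_eq_add_of_le hij
    rw [Nat.add_comm, Function.iterate_add_apply] at h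
    exact EUW_ne τ hτ k _ h
  · obtain ⟨k, rfl⟩ := Nat.exists_eq_add_of_le hij
    have h2 := congrArg SimpleGraph.Dart.symm h
    rw [SimpleGraph.Dart.symm_symm] at h2
    rw [Nat.add_comm, Function.iterate_add_apply] at h2
    exact EUW_ne τ hτ k _ h2.symm

private theorem EUW_ext {d d' : G.Dart} (h1 : d.fst = d'.fst) (h2 : d.snd = d'.snd) : d = d' := by
  apply SimpleGraph.Dart.ext
  exact Prod.ext h1 h2

end

theorem EUW : EUW_stmt := by
  intro V _ _ G τ hτ hn
  classical
  have hfin : Finite G.Dart := inferInstance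
  -- one circuit
  have hcard : Nat.card (Cir (fun d : G.Dart => d.symm) τ) = 1 := by
    have h1 : Nat.card {c : Cir (fun d : G.Dart => d.symm) τ // ∀ d : G.Dart, False →
      cir (fun d : G.Dart => d.symm) τ d ≠ c} = 1 := hn
    rw [← h1]
    refine (Nat.card_congr ?_)
    exact (Equiv.subtypeUnivEquiv (fun c d h => h.elim)).symm
  obtain ⟨hsub, hne⟩ := Nat.card_eq_one_iff_unique.1 hcard
  obtain ⟨c⟩ := hne
  obtain ⟨d₀, -⟩ := Quot.exists_rep c
  have hall : ∀ d : G.Dart, cir (fun d : G.Dart => d.symm) τ d = cir (fun d : G.Dart => d.symm) τ d₀ :=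
    fun d => hsub.elim _ _
  obtain ⟨r, hr⟩ : ∃ r : G.Dart → G.Dart, r = EUW_r τ := ⟨_, rfl⟩
  have hrd : ∀ d, r d = τ d.symm := fun d => by rw [hr]; rfl
  have hinj : Function.Injective r := by
    intro a b hab
    rw [hrd, hrd] at hab
    have h1 := congrArg τ hab
    rw [hτ.1, hτ.1] at h1
    have h2 := congrArg SimpleGraph.Dart.symm h1
    rwa [SimpleGraph.Dart.symm_symm, SimpleGraph.Dart.symm_symm] at h2
  have hper : d₀ ∈ Function.periodicPts r := hinj.mem_periodicPts d₀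
  obtain ⟨m, hm⟩ : ∃ m, m = Function.minimalPeriod r d₀ := ⟨_, rfl⟩
  have hmpos : 0 < m := by rw [hm]; exact Function.minimalPeriod_pos_of_mem_periodicPts hper
  have hrm : r^[m] d₀ = d₀ := by rw [hm]; exact Function.iterate_minimalPeriod
  have hsnd : ∀ i, (r^[i] d₀).snd = (r^[i + 1] d₀).fst := by
    intro i
    rw [Function.iterate_succ_apply', hrd, hτ.2.1]
    rfl
  have hS : ∀ d : G.Dart, ∃ i, d = r^[i] d₀ ∨ d = (r^[i] d₀).symm := by
    intro d
    have h1 : d ∈ {d : G.Dart | ∃ i, d = r^[i] d₀ ∨ d = (r^[i] d₀).symm} := by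
      refine EUW_ind (s := fun d : G.Dart => d.symm) (τ := τ) (fun d => SimpleGraph.Dart.symm_symm d) hτ.1 _
        ?_ ?_ (hall d) ⟨0, Or.inl rfl⟩
      · rintro x ⟨i, rfl | rfl⟩
        · exact ⟨i, Or.inr rfl⟩
        · exact ⟨i, Or.inl (SimpleGraph.Dart.symm_symm _)⟩
      · rintro x ⟨i, rfl | rfl⟩
        · have h2 : ∃ j, r^[i] d₀ = r^[j + 1] d₀ := by
            rcases i with _ | i
            · obtain ⟨k, hk⟩ := Nat.exists_eq_succ_of_ne_zero hmpos.ne'
              refine ⟨k, ?_⟩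
              rw [← Nat.succ_eq_add_one, ← hk, hrm]
              rfl
            · exact ⟨i, rfl⟩
          obtain ⟨j, hj⟩ := h2
          refine ⟨j, Or.inr ?_⟩
          rw [hj, Function.iterate_succ_apply', hrd, hτ.1]
        · refine ⟨i + 1, Or.inl ?_⟩
          rw [Function.iterate_succ_apply', hrd]
    exact h1
  refine ⟨m, fun i => (r^[i] d₀).fst, ⟨hmpos, ?_, ?_, ?_, ?_⟩, ?_⟩
  · intro i
    change (r^[i + m] d₀).fst = (r^[i] d₀).fst
    rw [Function.iterate_add_apply, hrm]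
  · intro i
    change G.Adj (r^[i] d₀).fst (r^[i + 1] d₀).fst
    rw [← hsnd]
    exact (r^[i] d₀).adj
  · intro i hi j hj h
    change s((r^[i] d₀).fst, (r^[i + 1] d₀).fst) = s((r^[j] d₀).fst, (r^[j + 1] d₀).fst) at h
    rw [← hsnd, ← hsnd, Sym2.eq_iff] at h
    rcases h with ⟨h1, h2⟩ | ⟨h1, h2⟩
    · have h3 := EUW_ext h1 h2
      rw [hm] at hi hj
      exact Function.iterate_injOn_Iio_minimalPeriod hi hj h3
    · exfalso
      have h3 : r^[i] d₀ = (r^[j] d₀).symm := EUW_ext h1 h2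
      rw [hr] at h3
      exact EUW_ne2 τ hτ d₀ i j h3
  · intro u w huw
    obtain ⟨i, hi⟩ := hS ⟨(u, w), huw⟩
    refine ⟨i % m, Nat.mod_lt _ hmpos, ?_⟩
    change s((r^[i % m] d₀).fst, (r^[i % m + 1] d₀).fst) = s(u, w)
    have h1 : r^[i % m] d₀ = r^[i] d₀ := by
      rw [hm]
      exact Function.iterate_mod_minimalPeriod_eq
    rw [← hsnd, h1, Sym2.eq_iff]
    rcases hi with hi | hi
    · left
      rw [← hi]
      exact ⟨rfl, rfl⟩
    · right
      have h2 := congrArg SimpleGraph.Dart.symm hi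
      rw [SimpleGraph.Dart.symm_symm] at h2
      rw [← h2]
      exact ⟨rfl, rfl⟩
  · intro i d d' h1 h2 h3 h4
    change d.fst = (r^[i + 1] d₀).fst at h1
    change d.snd = (r^[i] d₀).fst at h2
    change d'.fst = (r^[i + 1] d₀).fst at h3
    change d'.snd = (r^[i + 2] d₀).fst at h4
    have h5 : d = (r^[i] d₀).symm := EUW_ext (h1.trans (hsnd i).symm) h2
    have h6 : d' = r^[i + 1] d₀ := EUW_ext h3 (h4.trans (hsnd (i + 1)).symm)
    rw [h5, h6, Function.iterate_succ_apply', hrd]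

end Pool.Agent.IH
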